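import Pool.Agent.Helper710_TMix.MainM

/-!
Upper bound for the mixed Ramsey numbers `t(m,n)`.
-/

set_option autoImplicit false
open Filter Topology

namespace Pool.Agent.Results.MP_3f28b4_co.MixedUpper

open Pool.Agent.Helper710_TMix

lemma psi_le (C : ℝ) (hC : 0 < C) (n : ℕ) (hn : 2 ≤ n) :
    psi C ((n - 1 : ℕ) : ℝ) ≤ C * ((n : ℝ) * Real.sqrt n / Real.sqrt (Real.log n)) := by
  unfold psi
  have hn' : (2 : ℝ) ≤ n := by exact_mod_cast hn
  have h0 : ((n - 1 : ℕ) : ℝ) = n - 1 := by rw [Nat.cast_sub (by omega), Nat.cast_one]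
  rw [h0]
  apply mul_le_mul_of_nonneg_left _ hC.le
  have hlog : 0 < Real.log n := Real.log_pos (by linarith)
  apply div_le_div₀
  · positivity
  · apply mul_le_mul (by linarith) (Real.sqrt_le_sqrt (by linarith)) (Real.sqrt_nonneg _) (by linarith)
  · exact Real.sqrt_pos.mpr hlog
  · exact Real.sqrt_le_sqrt (Real.log_le_log (by linarith) (by linarith))

/-- For every fixed `m ≥ 3`, `t(m,n) ≤ (√(8/3) + o(1)) n^(m - 3/2) / √(log n)`. -/
theorem result : ∀ m : ℕ, 3 ≤ m → ∀ ε : ℝ, 0 < ε → ∀ᶠ n : ℕ in atTop,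
    ((sInf {N : ℕ | ∀ G : SimpleGraph (Fin N),
        (∃ S : Finset (Fin N), S.card = m ∧
          ∀ v ∈ S, ∃ w : Fin N, (w = v ∨ G.Adj v w) ∧
            ∀ u ∈ S, u ≠ v → ¬ (w = u ∨ G.Adj u w)) ∨
        ∃ s : Finset (Fin N), G.IsNClique n s} : ℕ) : ℝ)
      ≤ (Real.sqrt (8 / 3) + ε) * ((n : ℝ) ^ ((m : ℝ) - 3 / 2) / Real.sqrt (Real.log n)) := by
  intro m hm ε hε
  obtain ⟨k, rfl⟩ := Nat.exists_eq_add_of_le' hm
  set C : ℝ := Real.sqrt (8 / 3) + ε / 2 with hC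
  have hs0 : 0 ≤ Real.sqrt (8 / 3) := Real.sqrt_nonneg _
  have hC0 : 0 < C := by positivity
  have hC2 : 8 / 3 < C ^ 2 := by
    have h1 : Real.sqrt (8 / 3) ^ 2 = 8 / 3 := Real.sq_sqrt (by norm_num)
    nlinarith
  obtain ⟨K, hK0, hK⟩ := main_T C hC0 hC2
  -- eventually `K + 1` is at most `(ε/2) n^(3/2) / √(log n)`
  have hev : ∀ᶠ n : ℕ in atTop, (K + 1) ≤ ε / 2 * ((n : ℝ) * Real.sqrt n / Real.sqrt (Real.log n)) := by
    have h1 : ∀ᶠ n : ℕ in atTop, (K + 1) / (ε / 2) ≤ (n : ℝ) :=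
      tendsto_natCast_atTop_atTop.eventually_ge_atTop _
    filter_upwards [h1, eventually_ge_atTop 2] with n hn hn2
    have hn2' : (2 : ℝ) ≤ n := by exact_mod_cast hn2
    have hlog : 0 < Real.log n := Real.log_pos (by linarith)
    have h2 : Real.log n ≤ n := (Real.log_le_sub_one_of_pos (by linarith)).trans (by linarith)
    have h3 : (1 : ℝ) ≤ Real.sqrt n / Real.sqrt (Real.log n) := by
      rw [one_le_div (Real.sqrt_pos.mpr hlog)]
      exact Real.sqrt_le_sqrt h2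
    have h4 : (n : ℝ) ≤ (n : ℝ) * Real.sqrt n / Real.sqrt (Real.log n) := by
      rw [mul_div_assoc]
      nlinarith
    rw [div_le_iff₀ (by positivity)] at hn
    nlinarith
  filter_upwards [hev, eventually_ge_atTop 2] with n hn hn2
  have hn2' : (2 : ℝ) ≤ n := by exact_mod_cast hn2
  have hmain := main_m C K hC0 hK0 hK n (by omega) k
  set B : ℝ := (n : ℝ) ^ k * (K + psi C ((n - 1 : ℕ) : ℝ) + 1) with hB
  have hpsi0 : 0 ≤ psi C ((n - 1 : ℕ) : ℝ) := by unfold psi; positivity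
  have hB0 : 0 ≤ B := by positivity
  have hmem : ⌊B⌋₊ ∈ {N : ℕ | ∀ G : SimpleGraph (Fin N),
        (∃ S : Finset (Fin N), S.card = k + 3 ∧
          ∀ v ∈ S, ∃ w : Fin N, (w = v ∨ G.Adj v w) ∧
            ∀ u ∈ S, u ≠ v → ¬ (w = u ∨ G.Adj u w)) ∨
        ∃ s : Finset (Fin N), G.IsNClique n s} := by
    intro G
    by_contra hcon
    push Not at hcon
    obtain ⟨h1, h2⟩ := hcon
    have h3 := hmain (Fin ⌊B⌋₊) G (by
      rintro ⟨S, hS, hS2⟩
      obtain ⟨v, hv, hv2⟩ := h1 S hS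
      obtain ⟨w, hw, hw2⟩ := hS2 v hv
      obtain ⟨u, hu, huv, hu2⟩ := hv2 w hw
      exact hw2 u hu huv hu2) h2
    rw [Fintype.card_fin] at h3
    have h4 := Nat.lt_floor_add_one B
    linarith
  have hle := Nat.sInf_le hmem
  have hle' : ((sInf {N : ℕ | ∀ G : SimpleGraph (Fin N),
        (∃ S : Finset (Fin N), S.card = k + 3 ∧
          ∀ v ∈ S, ∃ w : Fin N, (w = v ∨ G.Adj v w) ∧
            ∀ u ∈ S, u ≠ v → ¬ (w = u ∨ G.Adj u w)) ∨
        ∃ s : Finset (Fin N), G.IsNClique n s} : ℕ) : ℝ) ≤ B :=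
    (Nat.cast_le.mpr hle).trans (Nat.floor_le hB0)
  refine hle'.trans ?_
  have hpow : (n : ℝ) ^ (((k + 3 : ℕ) : ℝ) - 3 / 2) = (n : ℝ) ^ k * ((n : ℝ) * Real.sqrt n) := by
    have h1 : ((k + 3 : ℕ) : ℝ) - 3 / 2 = (k : ℝ) + (1 + 1 / 2) := by push_cast; ring
    rw [h1, Real.rpow_add (by linarith), Real.rpow_add (by linarith), Real.rpow_one,
      Real.rpow_natCast, Real.sqrt_eq_rpow]
  rw [hpow, hB, mul_div_assoc]
  have h5 := psi_le C hC0 n hn2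
  have h6 : K + psi C ((n - 1 : ℕ) : ℝ) + 1 ≤
      (Real.sqrt (8 / 3) + ε) * ((n : ℝ) * Real.sqrt n / Real.sqrt (Real.log n)) := by
    have h7 : (Real.sqrt (8 / 3) + ε) * ((n : ℝ) * Real.sqrt n / Real.sqrt (Real.log n))
        = C * ((n : ℝ) * Real.sqrt n / Real.sqrt (Real.log n))
          + ε / 2 * ((n : ℝ) * Real.sqrt n / Real.sqrt (Real.log n)) := by rw [hC]; ring
    linarith
  have h8 : (0 : ℝ) ≤ (n : ℝ) ^ k := by positivity
  calc (n : ℝ) ^ k * (K + psi C ((n - 1 : ℕ) : ℝ) + 1)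
      ≤ (n : ℝ) ^ k * ((Real.sqrt (8 / 3) + ε) * ((n : ℝ) * Real.sqrt n / Real.sqrt (Real.log n))) :=
        mul_le_mul_of_nonneg_left h6 h8
    _ = _ := by ring

end Pool.Agent.Results.MP_3f28b4_co.MixedUpper
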